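import Mathlib
import Pool.Agent.W702.CoHopf.Main
import Pool.Agent.W386.Grp

/-!
A finitely presented co-hopfian group with a subgroup of index two that is not co-hopfian.

The group is the semidirect product `(C_3 * C_5) ⋊ C_2`, where the involution inverts the generators
of both factors (it is the amalgamated product of two dihedral groups of orders 6 and 10 along a
subgroup of order two); the subgroup is the free product `C_3 * C_5`.
-/

namespace Pool.Agent.Results.MP_ce3880_al.FiniteIndexSubgroup

open Pool.Agent.W702.CoHopf

/-- The free product of the family `M` over the booleans is the free product of two groups. -/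
noncomputable def coprodEquiv : Monoid.Coprod (M true) (M false) ≃* N :=
  MonoidHom.toMulEquiv
    (Monoid.Coprod.lift (Monoid.CoprodI.of (M := M) (i := true))
      (Monoid.CoprodI.of (M := M) (i := false)))
    (Monoid.CoprodI.lift fun b => match b with
      | true => Monoid.Coprod.inl
      | false => Monoid.Coprod.inr)
    (by
      apply Monoid.Coprod.hom_ext
      · ext x
        simp
      · ext x
        simp)
    (by
      apply Monoid.CoprodI.ext_hom
      intro b
      cases b <;> ext x <;> simp)

instance (b : Bool) : Finite (M b) := by
  have := factq b
  have : NeZero (q b) := ⟨this.out.ne_zero⟩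
  exact inferInstanceAs (Finite (ZMod (q b)))

theorem N_fp : Group.IsFinitelyPresented N :=
  Group.IsFinitelyPresented.equiv coprodEquiv

theorem G_fp : Group.IsFinitelyPresented G :=
  Pool.Agent.W386.fp_ext (SemidirectProduct.inl (φ := act)) SemidirectProduct.inl_injective
    (SemidirectProduct.rightHom (φ := act)) SemidirectProduct.rightHom_surjective
    SemidirectProduct.range_inl_eq_ker_rightHom.symm N_fp inferInstance

theorem H_fp : Group.IsFinitelyPresented H :=
  have := N_fp
  Group.IsFinitelyPresented.equiv
    ((MonoidHom.ofInjective (SemidirectProduct.inl_injective (φ := act))).trans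
      (MulEquiv.subgroupCongr H_eq.symm))

/-- There is a finitely presented group `G`, each of whose injective endomorphisms is surjective,
with a finitely presented subgroup `H` of index two that has an injective endomorphism which is not
surjective. -/
theorem result : ∃ (G : Type) (_ : Group G) (H : Subgroup G),
    Group.IsFinitelyPresented G ∧ Group.IsFinitelyPresented H ∧ H.index = 2 ∧
    (∀ f : G →* G, Function.Injective f → Function.Surjective f) ∧
    ∃ f : H →* H, Function.Injective f ∧ ¬ Function.Surjective f := by
  refine ⟨G, inferInstance, H, G_fp, H_fp, index_H, coHopfian_G, ?_⟩
  have h := not_coHopfian_H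
  unfold CoHopfian at h
  push Not at h
  exact h

end Pool.Agent.Results.MP_ce3880_al.FiniteIndexSubgroup
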